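import Pool.Agent.Helper70.ML.St3

set_option autoImplicit false

namespace Pool.Agent.Helper33.ML

open Pool.Agent.Helper70.ML Pool.Agent.Helper75.MX

theorem tv_val {n : ℕ} {F : Type} [Field F] (i j : Fin n) (h : i ≠ j) (a : F) :
    (tv i j a : SLn n F).1 = Matrix.transvection i j a := by
  unfold tv
  rw [dif_pos h]

theorem tv_entry {n : ℕ} {F : Type} [Field F] (i j : Fin n) (h : i ≠ j) (a : F) (k l : Fin n) :
    (tv i j a : SLn n F).1 k l = (if k = l then 1 else 0) + (if i = k ∧ j = l then a else 0) := by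
  rw [tv_val i j h a, Matrix.transvection, Matrix.add_apply, Matrix.one_apply, Matrix.single_apply]

theorem tv_inv {n : ℕ} {F : Type} [Field F] (i j : Fin n) (h : i ≠ j) (a : F) :
    (tv i j a : SLn n F)⁻¹ = tv i j (-a) := by
  symm
  apply eq_inv_of_mul_eq_one_left
  apply Subtype.ext
  have : ((tv i j (-a) * tv i j a : SLn n F)).1 = (tv i j (-a) : SLn n F).1 * (tv i j a : SLn n F).1 :=
    Matrix.SpecialLinearGroup.coe_mul _ _
  rw [this, tv_val i j h, tv_val i j h, Matrix.transvection_mul_transvection_same i j h]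
  simp

theorem tri_mul {n : ℕ} {F : Type} [Field F] (g h : SLn n F)
    (hg : (∀ i, g.1 i i = 1) ∧ ∀ i j, j < i → g.1 i j = 0)
    (hh : (∀ i, h.1 i i = 1) ∧ ∀ i j, j < i → h.1 i j = 0) :
    (∀ i, (g * h).1 i i = 1) ∧ ∀ i j, j < i → (g * h).1 i j = 0 := by
  have hm : (g * h).1 = g.1 * h.1 := Matrix.SpecialLinearGroup.coe_mul _ _
  constructor
  · intro i
    rw [hm, Matrix.mul_apply, Finset.sum_eq_single i]
    · rw [hg.1, hh.1, one_mul]
    · intro k _ hk
      rcases lt_or_gt_of_ne hk with hk | hk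
      · rw [hg.2 i k hk, zero_mul]
      · rw [hh.2 k i hk, mul_zero]
    · intro hi
      exact absurd (Finset.mem_univ i) hi
  · intro i j hij
    rw [hm, Matrix.mul_apply]
    apply Finset.sum_eq_zero
    intro k _
    rcases lt_or_ge k i with hk | hk
    · rw [hg.2 i k hk, zero_mul]
    · rw [hh.2 k j (lt_of_lt_of_le hij hk), mul_zero]

theorem tri_tv {n : ℕ} {F : Type} [Field F] (i j : Fin n) (h : i < j) (a : F) :
    (∀ k, (tv i j a : SLn n F).1 k k = 1) ∧ ∀ k l, l < k → (tv i j a : SLn n F).1 k l = 0 := by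
  constructor
  · intro k
    rw [tv_entry i j h.ne a]
    rw [if_pos rfl, if_neg, add_zero]
    rintro ⟨h1, h2⟩
    exact h.ne (h1.trans h2.symm)
  · intro k l hl
    rw [tv_entry i j h.ne a]
    rw [if_neg hl.ne', if_neg, add_zero]
    rintro ⟨h1, h2⟩
    rw [← h1, ← h2] at hl
    exact lt_asymm h hl

theorem hPUTR : StPUTR := by
  intro n F _
  constructor
  · intro g hg
    induction hg using Subgroup.closure_induction'' with
    | mem x hx =>
      obtain ⟨i, j, a, h, rfl⟩ := hx
      exact tri_tv i j h a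
    | inv_mem x hx =>
      obtain ⟨i, j, a, h, rfl⟩ := hx
      rw [tv_inv i j h.ne]
      exact tri_tv i j h (-a)
    | one =>
      constructor
      · intro i
        rw [Matrix.SpecialLinearGroup.coe_one, Matrix.one_apply, if_pos rfl]
      · intro i j hij
        rw [Matrix.SpecialLinearGroup.coe_one, Matrix.one_apply, if_neg hij.ne']
    | mul x y _ _ hx hy => exact tri_mul x y hx hy
  · intro g σ c hm hd
    obtain ⟨hc, he⟩ := hm
    have hσ : ∀ i, i = σ i ∧ c i = 1 := by
      intro i
      have h1 := hd i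
      rw [he i i] at h1
      by_cases h : i = σ i
      · rw [if_pos h] at h1
        exact ⟨h, h1⟩
      · rw [if_neg h] at h1
        exact absurd h1 zero_ne_one
    apply Subtype.ext
    ext i j
    rw [he i j, Matrix.SpecialLinearGroup.coe_one, Matrix.one_apply, ← (hσ j).1, (hσ j).2]

end Pool.Agent.Helper33.ML
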